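import Pool.Agent.Work.MP_7fd98a_co.Split.Main

/-!
Graceful complete multipartite graphs with at most one part of more than one vertex (complete
split graphs `K_{1,…,1,n}`): such a graph with `k ≥ 2` parts is graceful if and only if `k ≤ 4`.
-/

namespace Pool.Agent.Results.MP_7fd98a_co.CompleteSplit

/-- A finite graph with `q` edges is graceful if there is an injective `f : V → {0,…,q}` such
that different edges `uv` get different values `|f u - f v|`. -/
def Graceful {V : Type} (G : SimpleGraph V) : Prop :=
  ∃ f : V → ℕ, Function.Injective f ∧ (∀ v, f v ≤ Nat.card G.edgeSet) ∧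
    ∀ u v u' v' : V, G.Adj u v → G.Adj u' v' →
      |(f u : ℤ) - f v| = |(f u' : ℤ) - f v'| → s(u, v) = s(u', v')

/-- The complete multipartite graph with `k ≥ 2` nonempty parts of sizes `n_i`, where all parts
except possibly the part `i₀` are single vertices, is graceful if and only if `k ≤ 4`. -/
theorem result (k : ℕ) (hk : 2 ≤ k) (n : Fin k → ℕ) (hn : ∀ i, 1 ≤ n i) (i₀ : Fin k)
    (h1 : ∀ i, i ≠ i₀ → n i = 1) :
    Graceful (SimpleGraph.completeMultipartiteGraph (fun i : Fin k => Fin (n i))) ↔ k ≤ 4 :=
  Pool.Agent.Work.MP_7fd98a_co.Split.main k hk n hn i₀ h1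

end Pool.Agent.Results.MP_7fd98a_co.CompleteSplit
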