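import Mathlib

/-!
Graceful complete multipartite graphs: if `K_{n_1,…,n_k}` (`k ≥ 2`) is graceful and `p = ∑ n_i`,
then `∑ n_i ^ 2 ≥ 0.178 p ^ 2 + 1`; in particular the largest part has more than `0.178 p`
vertices.  Proof: a graceful labelling makes the differences across the parts run exactly once
through the nonzero integers of `[-q, q]`; evaluate at the frequency where the Dirichlet kernel
is most negative.
-/

namespace Pool.Agent.Results.MP_7fd98a_co.LargestPart

open Finset Real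

/-- A finite graph with `q` edges is graceful if there is an injective `f : V → {0,…,q}` such
that different edges `uv` get different values `|f u - f v|`. -/
def Graceful {V : Type} (G : SimpleGraph V) : Prop :=
  ∃ f : V → ℕ, Function.Injective f ∧ (∀ v, f v ≤ Nat.card G.edgeSet) ∧
    ∀ u v u' v' : V, G.Adj u v → G.Adj u' v' →
      |(f u : ℤ) - f v| = |(f u' : ℤ) - f v'| → s(u, v) = s(u', v')

/-- Dirichlet kernel over a symmetric integer interval without `0`. -/
lemma dirichlet (θ : ℝ) (q : ℕ) :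
    (∑ d ∈ (Icc (-(q : ℤ)) q).erase 0, cos ((d : ℝ) * θ)) * sin (θ / 2)
      = sin ((2 * q + 1) * (θ / 2)) - sin (θ / 2) := by
  induction q with
  | zero => simp
  | succ q ih =>
    have hset : (Icc (-((q + 1 : ℕ) : ℤ)) ((q + 1 : ℕ) : ℤ)).erase 0
        = insert (-((q : ℤ) + 1)) (insert ((q : ℤ) + 1) ((Icc (-(q : ℤ)) q).erase 0)) := by
      ext d
      simp only [mem_erase, mem_Icc, mem_insert]
      push_cast
      omega
    rw [hset, sum_insert, sum_insert]
    · rw [add_mul, add_mul, ih]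
      push_cast
      have e1 : cos ((-((q : ℝ) + 1)) * θ) = cos (((q : ℝ) + 1) * θ) := by
        rw [neg_mul, cos_neg]
      have e2 : sin ((2 * ((q : ℝ) + 1) + 1) * (θ / 2))
          = sin (((q : ℝ) + 1) * θ) * cos (θ / 2) + cos (((q : ℝ) + 1) * θ) * sin (θ / 2) := by
        rw [← sin_add]; congr 1; ring
      have e3 : sin ((2 * (q : ℝ) + 1) * (θ / 2))
          = sin (((q : ℝ) + 1) * θ) * cos (θ / 2) - cos (((q : ℝ) + 1) * θ) * sin (θ / 2) := by
        rw [← sin_sub]; congr 1; ring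
      have e4 : ((-((q : ℝ) + 1))) = (-1 + -(q : ℝ)) := by ring
      rw [e2, e3, e1]
      ring
    · simp only [mem_erase, mem_Icc, not_and]
      omega
    · simp only [mem_insert, mem_erase, mem_Icc, not_or, not_and]
      omega

/-- `∑_{u,v} cos (a_u - a_v) ≥ 0`. -/
lemma sum_cos_nonneg {V : Type} [Fintype V] (a : V → ℝ) :
    0 ≤ ∑ x : V × V, cos (a x.1 - a x.2) := by
  have h : ∑ x : V × V, cos (a x.1 - a x.2)
      = (∑ u, cos (a u)) ^ 2 + (∑ u, sin (a u)) ^ 2 := by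
    rw [pow_two, pow_two, sum_mul_sum, sum_mul_sum, ← sum_add_distrib, Fintype.sum_prod_type]
    refine sum_congr rfl fun u _ => ?_
    rw [← sum_add_distrib]
    refine sum_congr rfl fun v _ => ?_
    rw [cos_sub]
  rw [h]; positivity

/-- numerical choice of the frequency -/
lemma numeric (q : ℕ) (hq : 1 ≤ q) : ∃ θ : ℝ, 0 < sin (θ / 2) ∧
    sin ((2 * q + 1) * (θ / 2)) ≤ - (0.2172 * (2 * q + 1)) * sin (θ / 2) := by
  set t : ℝ := 3 * (π / 2) - 0.219 with ht
  have hpi1 : π < 3.1416 := pi_lt_d4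
  have hpi2 : 3.1415 < π := pi_gt_d4
  have hq' : (1 : ℝ) ≤ q := by exact_mod_cast hq
  have hpos : (0 : ℝ) < 2 * q + 1 := by linarith
  have ht1 : t < 4.4935 := by rw [ht]; linarith
  have ht0 : 4 < t := by rw [ht]; linarith
  refine ⟨2 * (t / (2 * q + 1)), ?_, ?_⟩
  · have h2 : 2 * (t / (2 * q + 1)) / 2 = t / (2 * q + 1) := by ring
    rw [h2]
    apply sin_pos_of_pos_of_lt_pi
    · positivity
    · rw [div_lt_iff₀ hpos]; nlinarith
  · have h2 : 2 * (t / (2 * q + 1)) / 2 = t / (2 * q + 1) := by ring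
    rw [h2]
    have h3 : (2 * (q : ℝ) + 1) * (t / (2 * q + 1)) = t := by field_simp
    rw [h3]
    have h4 : sin t = - cos 0.219 := by
      have : t = π + (π / 2 - 0.219) := by rw [ht]; ring
      rw [this, add_comm, sin_add_pi, sin_pi_div_two_sub]
    have h5 : 1 - (0.219 : ℝ) ^ 2 / 2 ≤ cos 0.219 := one_sub_sq_div_two_le_cos
    have h6 : sin (t / (2 * q + 1)) ≤ t / (2 * q + 1) := by
      apply (sin_lt _).le
      positivity
    have h7 : (2 * (q : ℝ) + 1) * sin (t / (2 * q + 1)) ≤ t := by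
      calc (2 * (q : ℝ) + 1) * sin (t / (2 * q + 1)) ≤ (2 * (q : ℝ) + 1) * (t / (2 * q + 1)) :=
            mul_le_mul_of_nonneg_left h6 hpos.le
        _ = t := h3
    rw [h4]
    nlinarith

/-- vertex set -/
abbrev Vx {k : ℕ} (n : Fin k → ℕ) : Type := Σ i : Fin k, Fin (n i)

theorem main (k : ℕ) (hk : 2 ≤ k) (n : Fin k → ℕ) (hn : ∀ i, 1 ≤ n i)
    (h : Graceful (SimpleGraph.completeMultipartiteGraph (fun i : Fin k => Fin (n i)))) :
    89 * (∑ i, n i) ^ 2 + 500 ≤ 500 * ∑ i, n i ^ 2 := by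
  classical
  obtain ⟨f, hinj, hle, hdist⟩ := h
  set G : SimpleGraph (Vx n) :=
    SimpleGraph.completeMultipartiteGraph (fun i : Fin k => Fin (n i)) with hG
  have hadj : ∀ u v : Vx n, G.Adj u v ↔ u.1 ≠ v.1 := fun u v => by
    simp [hG, SimpleGraph.completeMultipartiteGraph]
  set q := Nat.card G.edgeSet with hq
  have hqc : q = G.edgeFinset.card := by
    rw [hq, Nat.card_eq_fintype_card, ← SimpleGraph.edgeFinset_card]
  -- ordered pairs
  set P : Finset (Vx n × Vx n) := univ.filter (fun x => x.1.1 ≠ x.2.1) with hP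
  set Sm : Finset (Vx n × Vx n) := univ.filter (fun x => ¬ (x.1.1 ≠ x.2.1)) with hSm
  have hPcard : P.card = 2 * q := by
    rw [hqc, ← SimpleGraph.sum_degrees_eq_twice_card_edges]
    rw [hP, Finset.card_filter, Fintype.sum_prod_type]
    refine sum_congr rfl fun u _ => ?_
    rw [← SimpleGraph.card_neighborFinset_eq_degree, SimpleGraph.neighborFinset_eq_filter,
      Finset.card_filter]
    exact sum_congr rfl fun v _ => by simp only [hadj]
  have hVcard : Fintype.card (Vx n) = ∑ i, n i := by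
    rw [Fintype.card_sigma]; simp
  have hSmcard : Sm.card = ∑ i, n i ^ 2 := by
    rw [hSm, Finset.card_filter, Fintype.sum_prod_type]
    have : ∀ u : Vx n, (∑ v : Vx n, if ¬ (u.1 ≠ v.1) then 1 else 0) = n u.1 := by
      intro u
      rw [Fintype.sum_sigma]
      rw [Finset.sum_eq_single u.1]
      · simp
      · intro j _ hj
        simp [Ne.symm hj]
      · simp
    simp only [this]
    rw [Fintype.sum_sigma]
    refine sum_congr rfl fun i _ => ?_
    simp [pow_two]
  have htot : P.card + Sm.card = (∑ i, n i) ^ 2 := by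
    rw [hP, hSm, Finset.card_filter_add_card_filter_not]
    rw [Finset.card_univ, Fintype.card_prod, hVcard, pow_two]
  have hq1 : 1 ≤ q := by
    by_contra hcon
    have hP0 : P.card = 0 := by omega
    rw [Finset.card_eq_zero] at hP0
    have i0 : Fin k := ⟨0, by omega⟩
    have hmem : ((⟨⟨0, by omega⟩, ⟨0, hn _⟩⟩, ⟨⟨1, by omega⟩, ⟨0, hn _⟩⟩) : Vx n × Vx n) ∈ P := by
      rw [hP, mem_filter]
      refine ⟨mem_univ _, ?_⟩
      simp
    rw [hP0] at hmem
    simp at hmem
  -- the signed difference map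
  let d : Vx n × Vx n → ℤ := fun x => (f x.1 : ℤ) - f x.2
  have hdinj : Set.InjOn d (P : Set (Vx n × Vx n)) := by
    rintro ⟨u, v⟩ hx ⟨u', v'⟩ hy hxy
    simp only [hP, coe_filter, mem_univ, true_and, Set.mem_setOf_eq] at hx hy
    have h1 : (f u : ℤ) - f v = (f u' : ℤ) - f v' := hxy
    have h2 := hdist u v u' v' ((hadj u v).2 hx) ((hadj u' v').2 hy) (by rw [h1])
    rw [Sym2.eq_iff] at h2
    rcases h2 with ⟨rfl, rfl⟩ | ⟨rfl, rfl⟩
    · rfl
    · exfalso
      have h3 : (f u : ℤ) = f v := by linarith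
      have h4 : u = v := hinj (by exact_mod_cast h3)
      exact hx (by rw [h4])
  have hdmaps : ∀ x ∈ P, d x ∈ (Icc (-(q : ℤ)) q).erase 0 := by
    rintro ⟨u, v⟩ hx
    simp only [hP, mem_filter, mem_univ, true_and] at hx
    have hu := hle u
    have hv := hle v
    have hne : f u ≠ f v := fun e => hx (by rw [hinj e])
    simp only [mem_erase, mem_Icc, d]
    omega
  have himg : P.image d = (Icc (-(q : ℤ)) q).erase 0 := by
    apply Finset.eq_of_subset_of_card_le
    · intro y hy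
      rw [mem_image] at hy
      obtain ⟨x, hx, rfl⟩ := hy
      exact hdmaps x hx
    · rw [Finset.card_image_of_injOn hdinj, hPcard, Finset.card_erase_of_mem, Int.card_Icc]
      · omega
      · simp
  obtain ⟨θ, hθ, hθ2⟩ := numeric q hq1
  have hsum : ∑ x ∈ P, cos ((f x.1 : ℝ) * θ - (f x.2 : ℝ) * θ)
      = ∑ e ∈ (Icc (-(q : ℤ)) q).erase 0, cos ((e : ℝ) * θ) := by
    rw [← himg, Finset.sum_image hdinj]
    refine sum_congr rfl fun x _ => ?_
    congr 1
    simp only [d]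
    push_cast
    ring
  have hsplit : ∑ x ∈ P, cos ((f x.1 : ℝ) * θ - (f x.2 : ℝ) * θ)
      + ∑ x ∈ Sm, cos ((f x.1 : ℝ) * θ - (f x.2 : ℝ) * θ)
      = ∑ x : Vx n × Vx n, cos ((f x.1 : ℝ) * θ - (f x.2 : ℝ) * θ) := by
    rw [hP, hSm, Finset.sum_filter_add_sum_filter_not]
  have hnonneg := sum_cos_nonneg (fun v : Vx n => (f v : ℝ) * θ)
  have hSmle : ∑ x ∈ Sm, cos ((f x.1 : ℝ) * θ - (f x.2 : ℝ) * θ) ≤ Sm.card := by
    calc ∑ x ∈ Sm, cos ((f x.1 : ℝ) * θ - (f x.2 : ℝ) * θ) ≤ ∑ x ∈ Sm, (1 : ℝ) :=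
          sum_le_sum fun x _ => cos_le_one _
      _ = Sm.card := by simp
  have hdir := dirichlet θ q
  rw [← hsum] at hdir
  have hA : - (Sm.card : ℝ) ≤ ∑ x ∈ P, cos ((f x.1 : ℝ) * θ - (f x.2 : ℝ) * θ) := by linarith
  have hB : (∑ x ∈ P, cos ((f x.1 : ℝ) * θ - (f x.2 : ℝ) * θ)) * sin (θ / 2)
      ≤ (- (0.2172 * (2 * q + 1)) - 1) * sin (θ / 2) := by
    rw [hdir]; linarith
  have hC := le_of_mul_le_mul_right hB hθ
  have hPr : (P.card : ℝ) = 2 * q := by rw [hPcard]; push_cast; ring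
  have htotr : (P.card : ℝ) + Sm.card = ((∑ i, n i : ℕ) : ℝ) ^ 2 := by exact_mod_cast htot
  have hfin : (89 : ℝ) * ((∑ i, n i : ℕ) : ℝ) ^ 2 + 500 ≤ 500 * Sm.card := by
    nlinarith
  rw [hSmcard] at hfin
  exact_mod_cast hfin

/-- If the complete multipartite graph with `k ≥ 2` (nonempty) parts of sizes `n_i` is graceful
and `p = ∑ n_i`, then `∑ n_i ^ 2 ≥ 0.178 p ^ 2 + 1`, and some part has more than `0.178 p`
vertices. -/
theorem result (k : ℕ) (hk : 2 ≤ k) (n : Fin k → ℕ) (hn : ∀ i, 1 ≤ n i)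
    (h : Graceful (SimpleGraph.completeMultipartiteGraph (fun i : Fin k => Fin (n i)))) :
    89 * (∑ i, n i) ^ 2 + 500 ≤ 500 * ∑ i, n i ^ 2 ∧ ∃ i, 89 * ∑ j, n j < 500 * n i := by
  have hm := main k hk n hn h
  refine ⟨hm, ?_⟩
  by_contra hcon
  push_neg at hcon
  have h1 : 500 * ∑ i, n i ^ 2 ≤ 89 * (∑ i, n i) ^ 2 := by
    calc 500 * ∑ i, n i ^ 2 = ∑ i, (500 * n i) * n i := by
          rw [mul_sum]; exact sum_congr rfl fun i _ => by ring
      _ ≤ ∑ i, (89 * ∑ j, n j) * n i :=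
          sum_le_sum fun i _ => Nat.mul_le_mul_right _ (hcon i)
      _ = 89 * (∑ i, n i) ^ 2 := by rw [← mul_sum]; ring
  omega

end Pool.Agent.Results.MP_7fd98a_co.LargestPart
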